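import Pool.Agent.W275.US.Stm

/-!
# The Efron–Stein inequality
-/

set_option autoImplicit false

namespace Pool.Agent.W177.US.ES

open MeasureTheory Set Function

variable {b : ℕ} {α : Type} [MeasurableSpace α]

/-- bounded measurable functions -/
def BM (h : (Fin b → α) → ℝ) : Prop := Measurable h ∧ ∃ C : ℝ, ∀ u, |h u| ≤ C

/-- integrate out the coordinate `i` -/
noncomputable def Av (ν : Fin b → Measure α) (i : Fin b) (h : (Fin b → α) → ℝ) :
    (Fin b → α) → ℝ := fun u => ∫ v, h (update u i v) ∂(ν i)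

/-- `h` does not depend on the coordinate `i` -/
def Ind (i : Fin b) (h : (Fin b → α) → ℝ) : Prop := ∀ u v, h (update u i v) = h u

theorem BM.integrable {h : (Fin b → α) → ℝ} (hh : BM h) (P : Measure (Fin b → α))
    [IsProbabilityMeasure P] : Integrable h P := by
  obtain ⟨hm, C, hC⟩ := hh
  exact Integrable.of_bound hm.aestronglyMeasurable C (Filter.Eventually.of_forall hC)

theorem BM.mul {g h : (Fin b → α) → ℝ} (hg : BM g) (hh : BM h) : BM fun u => g u * h u := by
  obtain ⟨hgm, C, hC⟩ := hg
  obtain ⟨hhm, D, hD⟩ := hh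
  refine ⟨hgm.mul hhm, C * D, fun u => ?_⟩
  rw [abs_mul]
  exact mul_le_mul (hC u) (hD u) (abs_nonneg _) ((abs_nonneg _).trans (hC u))

theorem BM.sub {g h : (Fin b → α) → ℝ} (hg : BM g) (hh : BM h) : BM fun u => g u - h u := by
  obtain ⟨hgm, C, hC⟩ := hg
  obtain ⟨hhm, D, hD⟩ := hh
  refine ⟨hgm.sub hhm, C + D, fun u => ?_⟩
  exact (abs_sub _ _).trans (add_le_add (hC u) (hD u))

theorem upd_bound {ν : Fin b → Measure α} [∀ i, IsProbabilityMeasure (ν i)] {i : Fin b}
    {h : (Fin b → α) → ℝ} (hh : BM h) (u : Fin b → α) :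
    Integrable (fun v => h (update u i v)) (ν i) := by
  obtain ⟨hm, C, hC⟩ := hh
  refine Integrable.of_bound (hm.comp (measurable_update u)).aestronglyMeasurable C
    (Filter.Eventually.of_forall fun v => hC _)

theorem BM.av {ν : Fin b → Measure α} [∀ i, IsProbabilityMeasure (ν i)] (i : Fin b)
    {h : (Fin b → α) → ℝ} (hh : BM h) : BM (Av ν i h) := by
  obtain ⟨hm, C, hC⟩ := hh
  constructor
  · have h1 : Measurable fun q : (Fin b → α) × α => h (update q.1 i q.2) :=
      hm.comp measurable_update'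
    exact (h1.stronglyMeasurable.integral_prod_right (ν := ν i)).measurable
  · refine ⟨C, fun u => ?_⟩
    have := norm_integral_le_of_norm_le_const (μ := ν i) (f := fun v => h (update u i v)) (C := C)
      (Filter.Eventually.of_forall fun v => hC _)
    simpa [Av] using this

theorem mp_update (ν : Fin b → Measure α) [∀ i, IsProbabilityMeasure (ν i)] (i : Fin b) :
    MeasurePreserving (fun q : (Fin b → α) × α => update q.1 i q.2)
      ((Measure.pi ν).prod (ν i)) (Measure.pi ν) := by
  refine ⟨measurable_update', ?_⟩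
  symm
  refine Measure.pi_eq fun s hs => ?_
  rw [Measure.map_apply measurable_update' (MeasurableSet.univ_pi hs)]
  have hpre : (fun q : (Fin b → α) × α => update q.1 i q.2) ⁻¹' (Set.univ.pi s) =
      (Set.univ.pi (update s i Set.univ)) ×ˢ (s i) := by
    ext q
    simp only [mem_preimage, Set.mem_pi, mem_univ, forall_const, mem_prod]
    constructor
    · intro hq
      refine ⟨fun j => ?_, ?_⟩
      · by_cases hj : j = i
        · subst hj
          simp
        · have := hq j
          rw [update_of_ne hj] at this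
          rw [update_of_ne hj]
          exact this
      · have := hq i
        rwa [update_self] at this
    · rintro ⟨h1, h2⟩ j
      by_cases hj : j = i
      · subst hj
        rw [update_self]
        exact h2
      · have := h1 j
        rw [update_of_ne hj] at this
        rw [update_of_ne hj]
        exact this
  rw [hpre, Measure.prod_prod, Measure.pi_pi]
  rw [← Finset.mul_prod_erase Finset.univ (fun j => (ν j) (s j)) (Finset.mem_univ i),
    ← Finset.mul_prod_erase Finset.univ (fun j => (ν j) (update s i Set.univ j))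
      (Finset.mem_univ i)]
  rw [update_self, measure_univ, one_mul, mul_comm]
  congr 1
  refine Finset.prod_congr rfl fun j hj => ?_
  rw [update_of_ne (Finset.ne_of_mem_erase hj)]

theorem int_av (ν : Fin b → Measure α) [∀ i, IsProbabilityMeasure (ν i)] (i : Fin b)
    {h : (Fin b → α) → ℝ} (hh : BM h) :
    ∫ u, Av ν i h u ∂(Measure.pi ν) = ∫ u, h u ∂(Measure.pi ν) := by
  have h1 := mp_update ν i
  have h2 : ∫ u, h u ∂(Measure.pi ν) =
      ∫ q, h (update q.1 i q.2) ∂((Measure.pi ν).prod (ν i)) := by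
    rw [← h1.map_eq, integral_map h1.measurable.aemeasurable hh.1.aestronglyMeasurable]
    rw [h1.map_eq]
  rw [h2, integral_prod]
  · rfl
  · obtain ⟨hm, C, hC⟩ := hh
    exact Integrable.of_bound (hm.comp measurable_update').aestronglyMeasurable C
      (Filter.Eventually.of_forall fun q => hC _)

theorem av_ind (ν : Fin b → Measure α) (i : Fin b) (h : (Fin b → α) → ℝ) : Ind i (Av ν i h) := by
  intro u v
  unfold Av
  simp only [update_idem]

theorem av_ind' (ν : Fin b → Measure α) (i j : Fin b) {h : (Fin b → α) → ℝ} (hh : Ind i h) :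
    Ind i (Av ν j h) := by
  by_cases hij : i = j
  · subst hij
    exact av_ind ν i h
  intro u v
  unfold Av
  refine integral_congr_ae (Filter.Eventually.of_forall fun w => ?_)
  show h (update (update u i v) j w) = h (update u j w)
  rw [update_comm hij]
  exact hh _ _

theorem av_mul (ν : Fin b → Measure α) (i : Fin b) {h ψ : (Fin b → α) → ℝ} (hψ : Ind i ψ)
    (u : Fin b → α) : Av ν i (fun u => h u * ψ u) u = Av ν i h u * ψ u := by
  unfold Av
  rw [← integral_mul_const]
  refine integral_congr_ae (Filter.Eventually.of_forall fun w => ?_)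
  show h (update u i w) * ψ (update u i w) = h (update u i w) * ψ u
  rw [hψ u w]

/-- `∫ h ψ = ∫ (E_i h) ψ` if `ψ` does not depend on `i` -/
theorem int_mul (ν : Fin b → Measure α) [∀ i, IsProbabilityMeasure (ν i)] (i : Fin b)
    {h ψ : (Fin b → α) → ℝ} (hh : BM h) (hψ : BM ψ) (hi : Ind i ψ) :
    ∫ u, h u * ψ u ∂(Measure.pi ν) = ∫ u, Av ν i h u * ψ u ∂(Measure.pi ν) := by
  rw [← int_av ν i (hh.mul hψ)]
  exact integral_congr_ae (Filter.Eventually.of_forall fun u => av_mul ν i hi u)

/-- integrate out all the coordinates of a list -/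
noncomputable def Q (ν : Fin b → Measure α) : List (Fin b) → ((Fin b → α) → ℝ) →
    (Fin b → α) → ℝ
  | [], h => h
  | i :: l, h => Q ν l (Av ν i h)

theorem Q_bm (ν : Fin b → Measure α) [∀ i, IsProbabilityMeasure (ν i)] (l : List (Fin b)) :
    ∀ {h : (Fin b → α) → ℝ}, BM h → BM (Q ν l h) := by
  induction l with
  | nil => exact fun hh => hh
  | cons i l ih => exact fun hh => ih (hh.av i)

theorem Q_ind' (ν : Fin b → Measure α) (l : List (Fin b)) (i : Fin b) :
    ∀ {h : (Fin b → α) → ℝ}, Ind i h → Ind i (Q ν l h) := by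
  induction l with
  | nil => exact fun hh => hh
  | cons j l ih => exact fun hh => ih (av_ind' ν i j hh)

theorem Q_ind (ν : Fin b → Measure α) (l : List (Fin b)) :
    ∀ (h : (Fin b → α) → ℝ), ∀ i ∈ l, Ind i (Q ν l h) := by
  induction l with
  | nil => intro h i hi; simp at hi
  | cons j l ih =>
    intro h i hi
    rcases List.mem_cons.1 hi with rfl | hi
    · exact Q_ind' ν l i (av_ind ν i h)
    · exact ih _ i hi

theorem Q_mul (ν : Fin b → Measure α) [∀ i, IsProbabilityMeasure (ν i)] (l : List (Fin b)) :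
    ∀ {h ψ : (Fin b → α) → ℝ}, BM h → BM ψ → (∀ i ∈ l, Ind i ψ) →
    ∫ u, h u * ψ u ∂(Measure.pi ν) = ∫ u, Q ν l h u * ψ u ∂(Measure.pi ν) := by
  induction l with
  | nil => intro h ψ _ _ _; rfl
  | cons j l ih =>
    intro h ψ hh hψ hi
    rw [int_mul ν j hh hψ (hi j (by simp)), ih (hh.av j) hψ (fun i h => hi i (by simp [h]))]
    rfl

theorem av_sub (ν : Fin b → Measure α) [∀ i, IsProbabilityMeasure (ν i)] (i : Fin b)
    {g h : (Fin b → α) → ℝ} (hg : BM g) (hh : BM h) :
    Av ν i (fun u => g u - h u) = fun u => Av ν i g u - Av ν i h u := by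
  funext u
  unfold Av
  exact integral_sub (upd_bound hg u) (upd_bound hh u)

theorem Q_sub (ν : Fin b → Measure α) [∀ i, IsProbabilityMeasure (ν i)] (l : List (Fin b)) :
    ∀ {g h : (Fin b → α) → ℝ}, BM g → BM h →
    Q ν l (fun u => g u - h u) = fun u => Q ν l g u - Q ν l h u := by
  induction l with
  | nil => intro g h _ _; rfl
  | cons j l ih =>
    intro g h hg hh
    show Q ν l (Av ν j _) = _
    rw [av_sub ν j hg hh, ih (hg.av j) (hh.av j)]
    rfl

theorem lin3 {P : Measure (Fin b → α)} {A B C : (Fin b → α) → ℝ} (hA : Integrable A P)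
    (hB : Integrable B P) (hC : Integrable C P) (c : ℝ) :
    ∫ u, (A u + c * B u + C u) ∂P = ∫ u, A u ∂P + c * ∫ u, B u ∂P + ∫ u, C u ∂P := by
  have hB' : Integrable (fun u => c * B u) P := hB.const_mul c
  have hAB : Integrable (fun u => A u + c * B u) P := hA.add hB'
  rw [integral_add hAB hC, integral_add hA hB', integral_const_mul]

/-- `Q_l` is a contraction of `L²` -/
theorem Q_sq (ν : Fin b → Measure α) [∀ i, IsProbabilityMeasure (ν i)] (l : List (Fin b))
    {h : (Fin b → α) → ℝ} (hh : BM h) :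
    ∫ u, Q ν l h u * Q ν l h u ∂(Measure.pi ν) ≤ ∫ u, h u * h u ∂(Measure.pi ν) := by
  have hQ := Q_bm ν l hh
  have h0 : 0 ≤ ∫ u, (h u - Q ν l h u) * (h u - Q ν l h u) ∂(Measure.pi ν) :=
    integral_nonneg fun u => mul_self_nonneg _
  have h1 : ∫ u, (h u - Q ν l h u) * (h u - Q ν l h u) ∂(Measure.pi ν) =
      ∫ u, h u * h u ∂(Measure.pi ν) + (-2) * ∫ u, h u * Q ν l h u ∂(Measure.pi ν) +
        ∫ u, Q ν l h u * Q ν l h u ∂(Measure.pi ν) := by
    rw [← lin3 ((hh.mul hh).integrable _) ((hh.mul hQ).integrable _) ((hQ.mul hQ).integrable _)]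
    refine integral_congr_ae (Filter.Eventually.of_forall fun u => ?_)
    show _ = _
    ring
  have h2 := Q_mul ν l hh hQ (Q_ind ν l h)
  rw [h1, h2] at h0
  linarith

theorem main_ineq (ν : Fin b → Measure α) [∀ i, IsProbabilityMeasure (ν i)]
    {h : (Fin b → α) → ℝ} (hh : BM h) (l : List (Fin b)) :
    ∫ u, (h u - Q ν l h u) * (h u - Q ν l h u) ∂(Measure.pi ν) ≤
      (l.map fun i => ∫ u, (h u - Av ν i h u) ^ 2 ∂(Measure.pi ν)).sum := by
  induction l with
  | nil => simp [Q]
  | cons j l ih =>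
    rw [List.map_cons, List.sum_cons]
    have hA := hh.av (ν := ν) j
    have hχ := hh.sub hA
    set χ : (Fin b → α) → ℝ := fun u => h u - Av ν j h u with hχdef
    have hQh := Q_bm ν l hh
    have hQχ := Q_bm ν l hχ
    have hD := hh.sub hQh
    have e1 : ∀ u, h u - Q ν (j :: l) h u = (h u - Q ν l h u) + Q ν l χ u := by
      intro u
      have := congrFun (Q_sub ν l hh hA) u
      rw [hχdef, this]
      show h u - Q ν l (Av ν j h) u = _
      ring
    have e2 : ∫ u, (h u - Q ν (j :: l) h u) * (h u - Q ν (j :: l) h u) ∂(Measure.pi ν) =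
        ∫ u, (h u - Q ν l h u) * (h u - Q ν l h u) ∂(Measure.pi ν) +
        2 * ∫ u, (h u - Q ν l h u) * Q ν l χ u ∂(Measure.pi ν) +
        ∫ u, Q ν l χ u * Q ν l χ u ∂(Measure.pi ν) := by
      rw [← lin3 ((hD.mul hD).integrable _) ((hD.mul hQχ).integrable _)
        ((hQχ.mul hQχ).integrable _)]
      refine integral_congr_ae (Filter.Eventually.of_forall fun u => ?_)
      show _ = _
      simp only [e1]
      ring
    have e3 : ∫ u, (h u - Q ν l h u) * Q ν l χ u ∂(Measure.pi ν) = 0 := by
      have h1 : ∫ u, (h u - Q ν l h u) * Q ν l χ u ∂(Measure.pi ν) =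
          ∫ u, h u * Q ν l χ u ∂(Measure.pi ν) - ∫ u, Q ν l h u * Q ν l χ u ∂(Measure.pi ν) := by
        rw [← integral_sub ((hh.mul hQχ).integrable _) ((hQh.mul hQχ).integrable _)]
        refine integral_congr_ae (Filter.Eventually.of_forall fun u => ?_)
        show _ = _
        ring
      rw [h1, Q_mul ν l hh hQχ (Q_ind ν l χ), sub_self]
    have e4 := Q_sq ν l hχ
    have e5 : ∫ u, χ u * χ u ∂(Measure.pi ν) = ∫ u, (h u - Av ν j h u) ^ 2 ∂(Measure.pi ν) := by
      refine integral_congr_ae (Filter.Eventually.of_forall fun u => ?_)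
      show (h u - Av ν j h u) * (h u - Av ν j h u) = _
      ring
    rw [e2, e3, ← e5]
    linarith

omit [MeasurableSpace α] in
theorem ind_const {ψ : (Fin b → α) → ℝ} (h : ∀ i, Ind i ψ) (u u' : Fin b → α) : ψ u = ψ u' := by
  have key : ∀ s : Finset (Fin b), ψ (s.piecewise u' u) = ψ u := by
    intro s
    induction s using Finset.induction with
    | empty => simp
    | insert j s hj ih =>
      rw [Finset.piecewise_insert, h j]
      exact ih
  have := key Finset.univ
  rw [Finset.piecewise_univ] at this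
  exact this.symm

theorem main : Pool.Agent.W275.US.S_es := by
  intro b α _ ν _ h hm hC
  have hh : BM h := ⟨hm, hC⟩
  have h1 := main_ineq ν hh (List.finRange b)
  rw [← Fin.sum_univ_def (fun i => ∫ u, (h u - Av ν i h u) ^ 2 ∂(Measure.pi ν))] at h1
  refine le_trans (le_of_eq ?_) h1
  set q := Q ν (List.finRange b) h with hq
  have hqb : BM q := Q_bm ν _ hh
  have hind : ∀ i, Ind i q := fun i => Q_ind ν _ h i (List.mem_finRange i)
  have hmul : ∀ {ψ : (Fin b → α) → ℝ}, BM ψ → (∀ i, Ind i ψ) →
      ∫ u, h u * ψ u ∂(Measure.pi ν) = ∫ u, q u * ψ u ∂(Measure.pi ν) := fun hψ hi =>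
    Q_mul ν (List.finRange b) hh hψ fun i _ => hi i
  have hne : Nonempty (Fin b → α) := by
    by_contra hcon
    rw [not_nonempty_iff] at hcon
    have h2 : (Measure.pi ν) Set.univ = 0 := by
      rw [Set.univ_eq_empty_iff.2 hcon, measure_empty]
    rw [measure_univ] at h2
    exact one_ne_zero h2
  obtain ⟨u0⟩ := hne
  have hqc : ∀ u, q u = q u0 := fun u => ind_const hind u u0
  have hint : ∫ u, h u ∂(Measure.pi ν) = q u0 := by
    have h3 := hmul (ψ := fun _ => 1) ⟨measurable_const, 1, fun _ => by simp⟩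
      (fun i u v => rfl)
    simp only [mul_one] at h3
    rw [h3, integral_congr_ae (Filter.Eventually.of_forall hqc)]
    simp
  have hexp : ∫ u, (h u - q u) * (h u - q u) ∂(Measure.pi ν) =
      ∫ u, h u * h u ∂(Measure.pi ν) + (-2) * ∫ u, h u * q u ∂(Measure.pi ν) +
        ∫ u, q u * q u ∂(Measure.pi ν) := by
    rw [← lin3 ((hh.mul hh).integrable _) ((hh.mul hqb).integrable _) ((hqb.mul hqb).integrable _)]
    refine integral_congr_ae (Filter.Eventually.of_forall fun u => ?_)
    show _ = _
    ring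
  rw [hexp, hmul hqb hind]
  have h4 : ∫ u, q u * q u ∂(Measure.pi ν) = q u0 ^ 2 := by
    rw [integral_congr_ae (Filter.Eventually.of_forall fun u =>
      show q u * q u = q u0 ^ 2 by rw [hqc u]; ring)]
    simp
  have h5 : ∫ u, h u ^ 2 ∂(Measure.pi ν) = ∫ u, h u * h u ∂(Measure.pi ν) := by
    refine integral_congr_ae (Filter.Eventually.of_forall fun u => ?_)
    show _ = _
    ring
  rw [h4, h5, hint]
  ring

end Pool.Agent.W177.US.ES
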